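import Pool.Agent.H39.UP.Ctb
import Pool.Agent.H39.UP.Phi
import Pool.Agent.H39.UP.Mac
import Pool.Agent.H39.UP.Mack
import Pool.Agent.H39.UP.Bet
import Pool.Agent.H39.UP.Rb

/-!
P186 (MP_bcc40c_pr, Q2), part K: numbers of gluings with holes, normalised by the size.

`Zc c t v` : holes `c` (list of lengths), `t` = maximal possible number of vertices (planar case),
`v` vertices (so the genus is `(t - v) / 2`); the number of triangles is `2 t + 2 |c| - 4 - Σ c`.
`Kz c n w = Zc c (n + 2) w`, so `Kz [1] n w = bc n w`, and every step of the Tutte equation has a simple form: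
new triangle: `(p :: c) → ((p + 1) :: c)`, same `n`, same `w`; handle: `(i :: j :: c)`, `n - 2`, same `w`;
merge of two holes: same `n`, same `w`; split: `t = t1 + t2`, `w = w1 + w2`.
-/

set_option autoImplicit false

namespace UN39

/-- holes `c`, `t` vertices in the planar case, `v` vertices -/
noncomputable def Zc (c : List ℕ) (t v : ℕ) : ℝ :=
  if c.sum + 4 ≤ 2 * t + 2 * c.length then kc c (2 * t + 2 * c.length - 4 - c.sum) v else 0

/-- holes `c`, size `n`, `w` vertices -/
noncomputable def Kz (c : List ℕ) (n w : ℕ) : ℝ := Zc c (n + 2) w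

/-- the expected main term -/
noncomputable def Gz (c : List ℕ) (n w : ℕ) : ℝ :=
  (6 * (n : ℝ)) ^ (c.length - 1) * (c.map fun x => qf x (lamw ((w : ℝ) / n))).prod * bc n w

/-- the bound for the size and the length of small lobes -/
noncomputable def sl (n : ℕ) : ℕ := ⌈Real.log (n : ℝ) ^ 2⌉₊

/-- a small planar lobe: hole `i`, other holes `c1`, size `t1`, `w1` vertices -/
def Sml (n : ℕ) (i : ℕ) (c1 : List ℕ) (t1 w1 : ℕ) : Prop :=
  c1 = [] ∧ w1 = t1 ∧ t1 ≤ sl n ∧ i < sl n

open Classical in
/-- the splits at position `i` of the hole `k + 2` in which no side is a small planar lobe -/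
noncomputable def Spl (k i : ℕ) (c : List ℕ) (n w : ℕ) : ℝ :=
  ((splits c).map fun p => ∑ t1 ∈ Finset.range (n + 3), ∑ w1 ∈ Finset.range (w + 1),
    if Sml n i p.1 t1 w1 ∨ Sml n (k - i) p.2 (n + 2 - t1) (w - w1) then 0 else
      Zc (i :: p.1) t1 w1 * Zc ((k - i) :: p.2) (n + 2 - t1) (w - w1)).sum

end UN39
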