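import Pool.Agent.H39.UK.Defs

/-!
P186 (MP_bcc40c_pr, Q2), part K: the two results which the upper half of Q2 uses.
-/

set_option autoImplicit false

namespace UN39

/-- sharp asymptotics with holes of total length at most `n ^ (1/2 - δ)` -/
theorem ks {ω1 ω2 δ ε : ℝ} (h1 : 0 < ω1) (h2 : ω2 < 1) (hδ : 0 < δ) (hε : 0 < ε) (J : ℕ) :
    ∃ n0 : ℕ, ∀ (n w : ℕ) (c : List ℕ), n0 ≤ n → ω1 * n ≤ w → (w : ℝ) ≤ ω2 * n → w % 2 = n % 2 →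
      c ≠ [] → c.length ≤ J → (∀ x ∈ c, 1 ≤ x) → (c.sum : ℝ) ≤ (n : ℝ) ^ (1 / 2 - δ) →
      (1 - ε) * Gz c n w ≤ Kz c n w ∧ Kz c n w ≤ (1 + ε) * Gz c n w := by
  sorry

/-- the splits which do not cut off a small planar lobe -/
theorem kl {ω1 ω2 δ ε : ℝ} (h1 : 0 < ω1) (h2 : ω2 < 1) (hδ : 0 < δ) (hε : 0 < ε) (J : ℕ) :
    ∃ n0 : ℕ, ∀ (n w k i : ℕ) (c : List ℕ), n0 ≤ n → ω1 * n ≤ w → (w : ℝ) ≤ ω2 * n → w % 2 = n % 2 →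
      c.length ≤ J → (∀ x ∈ c, 1 ≤ x) → ((k + 2 + c.sum : ℕ) : ℝ) ≤ (n : ℝ) ^ (1 / 2 - δ) → i ≤ k →
      Spl k i c n w ≤ (n : ℝ) ^ (-1 + ε) * Kz ((k + 2) :: c) n w := by
  sorry

end UN39
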